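import Pool.Agent.Work.MP_db9399_sc.Interface
import Pool.Agent.Work.MP_db9399_px_helper83.SAMP
import Pool.Agent.Work.MP_db9399_px_helper89.WALK

/-! # THEOREM SC, block CODE: a connected critical set is given by a short walk -/

set_option autoImplicit false

namespace Pool.Agent.Work.MP_db9399_sc.helper23

open Finset Classical
open Pool.Agent.Work.MP_db9399_all (nb)
open Pool.Agent.Work.MP_db9399_px (LWalk hit)

universe u

theorem mem_nb {V : Type u} [Fintype V] {G : SimpleGraph V} {v w : V} :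
    w ∈ nb G v ↔ G.Adj v w := by
  simp [nb]

theorem dc {V : Type u} [Fintype V] (F : SimpleGraph V) (A B : Finset V) :
    ∑ v ∈ A, (nb F v ∩ B).card = ∑ w ∈ B, (nb F w ∩ A).card := by
  have h : ∀ (A B : Finset V), ∑ v ∈ A, (nb F v ∩ B).card =
      ∑ v ∈ A, ∑ w ∈ B, if F.Adj v w then 1 else 0 := by
    intro A B
    refine Finset.sum_congr rfl fun v _ => ?_
    rw [Finset.sum_boole, Nat.cast_id]
    congr 1
    ext s
    simp [mem_nb, and_comm]
  rw [h, h, Finset.sum_comm]
  refine Finset.sum_congr rfl fun v _ => Finset.sum_congr rfl fun w _ => ?_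
  simp only [F.adj_comm]

theorem walk3 {V : Type u} (G : SimpleGraph V) (a0 a1 a2 a3 : V) (h1 : a1 = a0 ∨ G.Adj a0 a1)
    (h2 : a2 = a1 ∨ G.Adj a1 a2) (h3 : a3 = a2 ∨ G.Adj a2 a3) :
    ∃ w : ℕ → V, LWalk G 4 w ∧ w 0 = a0 ∧ w 4 = a3 := by
  refine ⟨fun j => if j = 0 then a0 else if j = 1 then a1 else if j = 2 then a2 else a3,
    ?_, rfl, rfl⟩
  intro i hi
  interval_cases i
  · simpa using h1
  · simpa using h2
  · simpa using h3
  · left; simp

theorem log_facts (K : ℝ) (d : ℕ) (h1 : 40000 ≤ d) (h2 : ⌈Real.exp K⌉₊ ≤ d) :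
    K ≤ Real.log d ∧ 100 * Real.log d ≤ d := by
  have hd : (40000 : ℝ) ≤ d := by exact_mod_cast h1
  constructor
  · rw [Real.le_log_iff_exp_le (by linarith)]
    exact (Nat.le_ceil _).trans (by exact_mod_cast h2)
  · have h3 : (200 : ℝ) ≤ √d := by
      apply Real.le_sqrt_of_sq_le
      linarith
    have h4 : Real.log (√d) ≤ √d - 1 := Real.log_le_sub_one_of_pos (by linarith)
    have h5 : Real.log d = 2 * Real.log (√d) := by
      rw [Real.log_sqrt (by linarith)]
      ring
    have h6 : √d * √d = d := Real.mul_self_sqrt (by linarith)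
    rw [h5]
    nlinarith

theorem stmt_CODE : Stmt_CODE.{u} := by
  intro ε0 hε0
  obtain ⟨ε, hε, hεε, hε1⟩ : ∃ ε : ℝ, 0 < ε ∧ ε ≤ ε0 ∧ ε ≤ 1 / 10 :=
    ⟨min ε0 (1 / 10), lt_min hε0 (by norm_num), min_le_left _ _, min_le_right _ _⟩
  refine ⟨3 * ε / 40, max (max 40000 ⌈Real.exp ((360 / ε) ^ 2 + 100)⌉₊) ⌈104 / ε⌉₊, by positivity,
    ?_⟩
  intro V _ G F d U L C hd0 hE hloc hout hcr hcn
  have hd1 : 40000 ≤ d := (le_max_left _ _).trans ((le_max_left _ _).trans hd0)
  have hd2 : ⌈Real.exp ((360 / ε) ^ 2 + 100)⌉₊ ≤ d :=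
    (le_max_right _ _).trans ((le_max_left _ _).trans hd0)
  have hd3 : 104 / ε ≤ d := (Nat.le_ceil _).trans (by exact_mod_cast (le_max_right _ _).trans hd0)
  obtain ⟨hl0, hl1⟩ := log_facts _ d hd1 hd2
  set l0 : ℝ := Real.log d with hl0def
  have hl100 : 100 ≤ l0 := by
    have : 0 ≤ (360 / ε) ^ 2 := by positivity
    linarith
  have hlpos : 0 < l0 := by linarith
  have hdR : (40000 : ℝ) ≤ d := by exact_mod_cast hd1
  have hdpos : (0 : ℝ) < d := by linarith
  obtain ⟨hFG, hdeg, hLU, hbig⟩ := hE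
  obtain ⟨hCL, hCd, hcut⟩ := hcr
  -- the size of `C`
  have hc : (d : ℝ) / 2 ≤ C.card := by
    have : (d : ℝ) ≤ 2 * C.card := by exact_mod_cast hCd
    linarith
  have hcpos : (0 : ℝ) < C.card := by linarith
  have hCne : C.Nonempty := by
    rw [← Finset.card_pos]
    exact_mod_cast hcpos
  have h13 : (13 : ℝ) ≤ ε / 4 * C.card := by
    rw [div_le_iff₀ hε] at hd3
    nlinarith
  -- the number `q`
  set q : ℕ := ⌊(d : ℝ) / (4 * l0)⌋₊ with hq
  have hq1 : (q : ℝ) ≤ d / (4 * l0) := Nat.floor_le (by positivity)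
  have hq2 : (d : ℝ) / (4 * l0) < q + 1 := Nat.lt_floor_add_one _
  have hq3 : (d : ℝ) / (5 * l0) ≤ q := by
    have h1 : (5 : ℝ) ≤ d / (20 * l0) := by
      rw [le_div_iff₀ (by positivity)]
      linarith
    have h2 : (d : ℝ) / (4 * l0) - d / (5 * l0) = d / (20 * l0) := by
      field_simp
      norm_num
    linarith
  have hq4 : (d : ℝ) ≤ 5 * l0 * q := by
    rw [div_le_iff₀ (by positivity)] at hq3
    linarith
  have hqpos : (0 : ℝ) < q := lt_of_lt_of_le (by positivity) hq3
  have hq0 : 0 < q := by exact_mod_cast hqpos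
  set θ : ℝ := d / (2 * q) with hθ
  have hθq : θ * q = d / 2 := by
    rw [hθ]
    field_simp
  have hθ2 : 2 * l0 ≤ θ := by
    rw [hθ, le_div_iff₀ (by positivity)]
    rw [le_div_iff₀ (by positivity)] at hq1
    linarith
  have hθpos : 0 < θ := by linarith
  have hexp : Real.exp (-θ) ≤ 1 / d ^ 2 := by
    have h1 : Real.exp (-θ) ≤ Real.exp (-(2 * l0)) := Real.exp_le_exp.2 (by linarith)
    refine h1.trans (le_of_eq ?_)
    rw [Real.exp_neg, hl0def, one_div]
    congr 1
    rw [two_mul, Real.exp_add, Real.exp_log hdpos]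
    ring
  have hsq : 18 / √θ ≤ ε / 20 := by
    have h1 : 360 / ε ≤ √θ := by
      apply Real.le_sqrt_of_sq_le
      linarith
    have h2 : 0 < 360 / ε := by positivity
    calc 18 / √θ ≤ 18 / (360 / ε) := div_le_div_of_nonneg_left (by norm_num) h2 h1
      _ = ε / 20 := by field_simp; norm_num
  -- degrees in `C`
  have hlow : ∀ v ∈ C, (999 : ℝ) / 1000 * d ≤ ((nb F v ∩ C).card : ℝ) +
      (nb F v ∩ (U \ C)).card := by
    intro v hv
    have h1 := hbig v (hCL hv)
    have h2 : (nb F v ∩ U).card ≤ (nb F v ∩ C).card + (nb F v ∩ (U \ C)).card := by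
      refine le_trans (Finset.card_le_card ?_) (Finset.card_union_le _ _)
      intro x hx
      rw [mem_inter] at hx
      rw [mem_union, mem_inter, mem_inter, mem_sdiff]
      by_cases hxC : x ∈ C
      · exact Or.inl ⟨hx.1, hxC⟩
      · exact Or.inr ⟨hx.1, hx.2, hxC⟩
    have h3 : (999 : ℝ) * d ≤ 1000 * (nb F v ∩ U).card := by exact_mod_cast h1
    have h4 : ((nb F v ∩ U).card : ℝ) ≤ (nb F v ∩ C).card + (nb F v ∩ (U \ C)).card := by
      exact_mod_cast h2
    linarith
  have hGF : ∀ v (A : Finset V), (nb F v ∩ A).card ≤ (nb G v ∩ A).card := by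
    intro v A
    apply Finset.card_le_card
    apply Finset.inter_subset_inter_right
    intro x hx
    rw [mem_nb] at hx ⊢
    exact hFG hx
  -- exceptional vertices
  obtain ⟨E1, hE1⟩ : ∃ E : Finset V, E = C.filter (fun v => d < 10 * (nb F v ∩ (U \ C)).card) :=
    ⟨_, rfl⟩
  have hE1c : E1.card ≤ 13 := by
    by_contra hcon
    have h1 : ∑ v ∈ E1, d ≤ ∑ v ∈ E1, 10 * (nb F v ∩ (U \ C)).card := by
      apply Finset.sum_le_sum
      intro v hv
      rw [hE1, mem_filter] at hv
      exact hv.2.le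
    have h2 : ∑ v ∈ E1, 10 * (nb F v ∩ (U \ C)).card ≤
        ∑ v ∈ C, 10 * (nb F v ∩ (U \ C)).card := by
      apply Finset.sum_le_sum_of_subset
      rw [hE1]
      exact Finset.filter_subset _ _
    rw [Finset.sum_const, smul_eq_mul] at h1
    simp only [← Finset.mul_sum] at h1 h2
    unfold cut at hcut
    have h3 : 14 * d ≤ E1.card * d := Nat.mul_le_mul_right d (by omega)
    omega
  obtain ⟨E2, hE2⟩ : ∃ E : Finset V, E = (U \ C).filter (fun v => d < 10 * (nb F v ∩ C).card) :=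
    ⟨_, rfl⟩
  have hE2c : E2.card ≤ 13 := by
    by_contra hcon
    have h1 : ∑ v ∈ E2, d ≤ ∑ v ∈ E2, 10 * (nb F v ∩ C).card := by
      apply Finset.sum_le_sum
      intro v hv
      rw [hE2, mem_filter] at hv
      exact hv.2.le
    have h2 : ∑ v ∈ E2, 10 * (nb F v ∩ C).card ≤
        ∑ v ∈ U \ C, 10 * (nb F v ∩ C).card := by
      apply Finset.sum_le_sum_of_subset
      rw [hE2]
      exact Finset.filter_subset _ _
    rw [Finset.sum_const, smul_eq_mul] at h1
    simp only [← Finset.mul_sum] at h1 h2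
    rw [dc F (U \ C) C] at h2
    unfold cut at hcut
    have h3 : 14 * d ≤ E2.card * d := Nat.mul_le_mul_right d (by omega)
    omega
  obtain ⟨E3, hE3⟩ : ∃ E : Finset V, E = (univ \ U).filter
    (fun v => (3 : ℝ) / 10 * d < ((nb G v ∩ C).card : ℝ)) := ⟨_, rfl⟩
  have hE3c : (E3.card : ℝ) ≤ ε / 4 * C.card := by
    have h1 : ∑ v ∈ E3, (3 : ℝ) / 10 * d ≤ ∑ v ∈ E3, ((nb G v ∩ C).card : ℝ) := by
      apply Finset.sum_le_sum
      intro v hv
      rw [hE3, mem_filter] at hv
      exact hv.2.le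
    have h2 : ∑ v ∈ E3, ((nb G v ∩ C).card : ℝ) ≤ ∑ v ∈ univ \ U, ((nb G v ∩ C).card : ℝ) := by
      apply Finset.sum_le_sum_of_subset_of_nonneg
      · rw [hE3]
        exact Finset.filter_subset _ _
      · intro _ _ _
        positivity
    have h3 : ∑ v ∈ univ \ U, ((nb G v ∩ C).card : ℝ) = ∑ v ∈ C, ((nb G v ∩ (univ \ U)).card : ℝ) := by
      exact_mod_cast dc G (univ \ U) C
    have h4 : ∑ v ∈ C, ((nb G v ∩ (univ \ U)).card : ℝ) ≤ ∑ v ∈ C, 3 * ε / 40 * d := by
      apply Finset.sum_le_sum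
      intro v _
      have h5 := hout v
      have h6 : nb G v ∩ (univ \ U) = nb G v \ U := by
        ext x
        simp
      rw [h6]
      exact h5
    rw [Finset.sum_const, nsmul_eq_mul] at h1 h4
    rw [h3] at h2
    have h5 : (E3.card : ℝ) * (3 / 10 * d) ≤ (ε / 4 * C.card) * (3 / 10 * d) := by
      calc (E3.card : ℝ) * (3 / 10 * d) ≤ C.card * (3 * ε / 40 * d) := by linarith
        _ = (ε / 4 * C.card) * (3 / 10 * d) := by ring
    exact le_of_mul_le_mul_right h5 (by positivity)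
  -- sizes of `S w`
  have hin : ∀ v ∈ C, v ∉ E1 → (8 : ℝ) / 10 * d ≤ ((nb G v ∩ C).card : ℝ) := by
    intro v hv hvE
    have h1 : ¬ (d < 10 * (nb F v ∩ (U \ C)).card) := by
      intro h
      apply hvE
      rw [hE1, mem_filter]
      exact ⟨hv, h⟩
    have h2 : (10 : ℝ) * (nb F v ∩ (U \ C)).card ≤ d := by exact_mod_cast not_lt.1 h1
    have h3 := hlow v hv
    have h4 : ((nb F v ∩ C).card : ℝ) ≤ (nb G v ∩ C).card := by exact_mod_cast hGF v C
    linarith
  have houts : ∀ v, v ∉ C → v ∉ E2 → v ∉ E3 → ((nb G v ∩ C).card : ℝ) ≤ 3 / 10 * d := by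
    intro v hv hv2 hv3
    by_cases hvU : v ∈ U
    · have h1 : ¬ (d < 10 * (nb F v ∩ C).card) := by
        intro h
        apply hv2
        rw [hE2, mem_filter, mem_sdiff]
        exact ⟨⟨hvU, hv⟩, h⟩
      have h2 : (10 : ℝ) * (nb F v ∩ C).card ≤ d := by exact_mod_cast not_lt.1 h1
      have h3 : (10 : ℝ) * ((nb G v \ nb F v) ∩ U).card ≤ d := by exact_mod_cast hloc v hvU
      have h4 : (nb G v ∩ C).card ≤ ((nb G v \ nb F v) ∩ U).card + (nb F v ∩ C).card := by
        refine le_trans (Finset.card_le_card ?_) (Finset.card_union_le _ _)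
        intro x hx
        rw [mem_inter] at hx
        rw [mem_union, mem_inter, mem_inter, mem_sdiff]
        by_cases hxF : x ∈ nb F v
        · exact Or.inr ⟨hxF, hx.2⟩
        · exact Or.inl ⟨⟨hx.1, hxF⟩, hLU (hCL hx.2)⟩
      have h5 : ((nb G v ∩ C).card : ℝ) ≤ ((nb G v \ nb F v) ∩ U).card + (nb F v ∩ C).card := by
        exact_mod_cast h4
      linarith
    · by_contra hcon
      apply hv3
      rw [hE3, mem_filter, mem_sdiff]
      exact ⟨⟨mem_univ _, hvU⟩, not_le.1 hcon⟩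
  -- the sample
  have htot : ∑ w : V, ((nb G w ∩ C).card : ℝ) ≤ d * C.card := by
    have h1 : ∑ w : V, ((nb G w ∩ C).card : ℝ) = ∑ v ∈ C, ((nb G v ∩ univ).card : ℝ) := by
      exact_mod_cast dc G univ C
    rw [h1]
    have h2 : ∑ v ∈ C, ((nb G v ∩ univ).card : ℝ) ≤ ∑ v ∈ C, (d : ℝ) := by
      apply Finset.sum_le_sum
      intro v _
      rw [Finset.inter_univ]
      exact_mod_cast hdeg v
    rw [Finset.sum_const, nsmul_eq_mul] at h2
    linarith
  have hpos : 0 < ∑ w : V, (nb G w ∩ C).card := by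
    have h1 : ∑ w : V, (nb G w ∩ C).card = ∑ v ∈ C, (nb G v ∩ univ).card := dc G univ C
    rw [h1]
    obtain ⟨v, hv⟩ := hCne
    have h2 := hbig v (hCL hv)
    have h3 : 0 < (nb F v ∩ U).card := by
      by_contra hcon
      have : (nb F v ∩ U).card = 0 := by omega
      rw [this] at h2
      omega
    have h4 : (nb F v ∩ U).card ≤ (nb G v ∩ univ).card := by
      apply Finset.card_le_card
      intro x hx
      rw [mem_inter, mem_nb] at hx
      rw [mem_inter, mem_nb]
      exact ⟨hFG hx.1, mem_univ _⟩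
    have h5 : (nb G v ∩ univ).card ≤ ∑ v ∈ C, (nb G v ∩ univ).card :=
      Finset.single_le_sum (f := fun v => (nb G v ∩ univ).card) (fun _ _ => Nat.zero_le _) hv
    omega
  obtain ⟨R, hRC, hRc, hRm, hRe⟩ := Pool.Agent.Work.MP_db9399_px.helper83.stmt_SAMP.{u} (W := V) C
    univ (fun w => nb G w ∩ C) q θ hq0 (by linarith) hCne (fun w _ => Finset.inter_subset_right) hpos
  have hSR : ∀ w, nb G w ∩ C ∩ R = nb G w ∩ R := by
    intro w
    ext x
    simp only [mem_inter]
    constructor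
    · rintro ⟨⟨h1, _⟩, h2⟩
      exact ⟨h1, h2⟩
    · rintro ⟨h1, h2⟩
      exact ⟨⟨h1, hRC h2⟩, h2⟩
  simp only [hSR] at hRm hRe
  rw [hθq] at hRm hRe
  -- misclassified vertices
  obtain ⟨Bd, hBd⟩ : ∃ E : Finset V, E = (univ.filter (fun w : V =>
    ¬ (θ < ((nb G w ∩ R).card : ℝ) ↔ (d : ℝ) / 2 < ((nb G w ∩ C).card : ℝ)))) \ (E1 ∪ E2 ∪ E3) :=
    ⟨_, rfl⟩
  have hBdc : (Bd.card : ℝ) ≤ ε / 4 * C.card := by
    have h1 : ∑ w ∈ Bd, (d : ℝ) / 5 ≤ ∑ w ∈ univ.filter (fun w : V =>
        ¬ (θ < ((nb G w ∩ R).card : ℝ) ↔ (d : ℝ) / 2 < ((nb G w ∩ C).card : ℝ))),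
        |((nb G w ∩ C).card : ℝ) - d / 2| := by
      refine le_trans (Finset.sum_le_sum (g := fun w => |((nb G w ∩ C).card : ℝ) - d / 2|) ?_)
        (Finset.sum_le_sum_of_subset_of_nonneg ?_ (fun _ _ _ => abs_nonneg _))
      · intro w hw
        rw [hBd, mem_sdiff] at hw
        have hw2 := hw.2
        rw [mem_union, mem_union] at hw2
        push Not at hw2
        by_cases hwC : w ∈ C
        · have h2 := hin w hwC hw2.1.1
          refine le_trans ?_ (le_abs_self _)
          linarith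
        · have h2 := houts w hwC hw2.1.2 hw2.2
          refine le_trans ?_ (neg_le_abs _)
          linarith
      · rw [hBd]
        exact Finset.sdiff_subset
    have h2 := h1.trans hRm
    rw [Finset.sum_const, nsmul_eq_mul] at h2
    have h3 : 18 / √θ * ∑ w : V, ((nb G w ∩ C).card : ℝ) ≤ ε / 20 * (d * C.card) :=
      mul_le_mul hsq htot (Finset.sum_nonneg fun _ _ => Nat.cast_nonneg _) (by positivity)
    have h4 : (Bd.card : ℝ) * (d / 5) ≤ (ε / 4 * C.card) * (d / 5) := by
      calc (Bd.card : ℝ) * (d / 5) ≤ ε / 20 * (d * C.card) := h2.trans h3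
        _ = (ε / 4 * C.card) * (d / 5) := by ring
    exact le_of_mul_le_mul_right h4 (by positivity)
  have hmh : ∀ w, w ∈ hit G θ R ↔ θ < ((nb G w ∩ R).card : ℝ) := by
    intro w
    unfold hit
    simp
  have hA : ((hit G θ R \ C).card : ℝ) ≤ ε * C.card := by
    have h1 : hit G θ R \ C ⊆ E2 ∪ E3 ∪ Bd := by
      intro w hw
      rw [mem_sdiff, hmh] at hw
      by_contra hcon
      rw [mem_union, mem_union] at hcon
      push Not at hcon
      have h2 := houts w hw.2 hcon.1.1 hcon.1.2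
      apply hcon.2
      rw [hBd, mem_sdiff, mem_filter, mem_union, mem_union]
      refine ⟨⟨mem_univ _, ?_⟩, ?_⟩
      · intro h
        have := h.1 hw.1
        linarith
      · rintro ((h | h) | h)
        · rw [hE1, mem_filter] at h
          exact hw.2 h.1
        · exact hcon.1.1 h
        · exact hcon.1.2 h
    have h2 : (hit G θ R \ C).card ≤ E2.card + E3.card + Bd.card :=
      (Finset.card_le_card h1).trans ((Finset.card_union_le _ _).trans
        (Nat.add_le_add_right (Finset.card_union_le _ _) _))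
    have h3 : ((hit G θ R \ C).card : ℝ) ≤ E2.card + E3.card + Bd.card := by exact_mod_cast h2
    have h4 : (E2.card : ℝ) ≤ 13 := by exact_mod_cast hE2c
    linarith
  have hB : ((C \ hit G θ R).card : ℝ) ≤ ε * C.card := by
    have h1 : C \ hit G θ R ⊆ E1 ∪ Bd := by
      intro w hw
      rw [mem_sdiff, hmh] at hw
      by_contra hcon
      rw [mem_union] at hcon
      push Not at hcon
      have h2 := hin w hw.1 hcon.1
      apply hcon.2
      rw [hBd, mem_sdiff, mem_filter, mem_union, mem_union]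
      refine ⟨⟨mem_univ _, ?_⟩, ?_⟩
      · intro h
        exact hw.2 (h.2 (by linarith))
      · rintro ((h | h) | h)
        · exact hcon.1 h
        · rw [hE2, mem_filter, mem_sdiff] at h
          exact h.1.2 hw.1
        · rw [hE3, mem_filter, mem_sdiff] at h
          exact h.1.2 (hLU (hCL hw.1))
    have h2 : (C \ hit G θ R).card ≤ E1.card + Bd.card :=
      (Finset.card_le_card h1).trans (Finset.card_union_le _ _)
    have h3 : ((C \ hit G θ R).card : ℝ) ≤ E1.card + Bd.card := by exact_mod_cast h2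
    have h4 : (E1.card : ℝ) ≤ 13 := by exact_mod_cast hE1c
    linarith
  -- missed vertices
  obtain ⟨Ms, hMs⟩ : ∃ E : Finset V, E = C.filter (fun v => nb G v ∩ R = ∅) := ⟨_, rfl⟩
  have hMsc : (Ms.card : ℝ) ≤ 13 + 6 * C.card / d ^ 2 := by
    have h1 : Ms ⊆ E1 ∪ univ.filter (fun w : V => (d : ℝ) / 2 < ((nb G w ∩ C).card : ℝ) ∧
        nb G w ∩ R = ∅) := by
      intro v hv
      rw [hMs, mem_filter] at hv
      rw [mem_union, mem_filter]
      by_cases hvE : v ∈ E1
      · exact Or.inl hvE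
      · have h2 := hin v hv.1 hvE
        exact Or.inr ⟨mem_univ _, by linarith, hv.2⟩
    have h2 := (Finset.card_le_card h1).trans (Finset.card_union_le _ _)
    have h3 : (Ms.card : ℝ) ≤ E1.card + (univ.filter (fun w : V =>
      (d : ℝ) / 2 < ((nb G w ∩ C).card : ℝ) ∧ nb G w ∩ R = ∅)).card := by exact_mod_cast h2
    have h4 : (E1.card : ℝ) ≤ 13 := by exact_mod_cast hE1c
    have h5 : 3 * Real.exp (-θ) / (d / 2) * ∑ w : V, ((nb G w ∩ C).card : ℝ) ≤
        3 * (1 / d ^ 2) / (d / 2) * (d * C.card) := by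
      apply mul_le_mul _ htot (Finset.sum_nonneg fun _ _ => Nat.cast_nonneg _) (by positivity)
      apply div_le_div_of_nonneg_right _ (by positivity)
      linarith
    have h6 : 3 * (1 / (d : ℝ) ^ 2) / (d / 2) * (d * C.card) = 6 * C.card / d ^ 2 := by
      field_simp
      norm_num
    linarith
  have hnbr : ∀ v ∈ C, ∃ t, t ∈ C ∧ F.Adj v t := by
    intro v hv
    have h1 : ({v} : Finset V) ≠ C := by
      intro h
      have h2 : C.card = 1 := by rw [← h]; simp
      rw [h2] at hc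
      push_cast at hc
      linarith
    obtain ⟨a, ha, b, hb, _, hab⟩ := hcn {v} (by simpa using hv) (by simp) h1
    rw [mem_singleton] at ha
    subst ha
    exact ⟨b, hb, hab⟩
  choose! tf htf using hnbr
  obtain ⟨T, hT⟩ : ∃ T : Finset V, T = Ms.image tf := ⟨_, rfl⟩
  have hTC : T ⊆ C := by
    intro t ht
    rw [hT, mem_image] at ht
    obtain ⟨v, hv, rfl⟩ := ht
    rw [hMs, mem_filter] at hv
    exact (htf v hv.1).1
  have hTc : T.card ≤ Ms.card := by
    rw [hT]
    exact Finset.card_image_le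
  -- every vertex of `C` has a neighbour in `R ∪ T`
  have hcov : ∀ v ∈ C, ∃ x ∈ R ∪ T, G.Adj v x := by
    intro v hv
    by_cases h : nb G v ∩ R = ∅
    · refine ⟨tf v, ?_, hFG (htf v hv).2⟩
      rw [mem_union, hT, mem_image]
      exact Or.inr ⟨v, by rw [hMs, mem_filter]; exact ⟨hv, h⟩, rfl⟩
    · obtain ⟨x, hx⟩ := Finset.nonempty_iff_ne_empty.2 h
      rw [mem_inter, mem_nb] at hx
      exact ⟨x, mem_union_left _ hx.2, hx.1⟩
  have hUC : R ∪ T ⊆ C := Finset.union_subset hRC hTC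
  obtain ⟨x, hx⟩ : (R ∪ T).Nonempty := by
    obtain ⟨v, hv⟩ := hCne
    obtain ⟨x, hx, _⟩ := hcov v hv
    exact ⟨x, hx⟩
  obtain ⟨w, hw1, hw2, hw3⟩ := Pool.Agent.Work.MP_db9399_px.helper89.stmt_WALK.{u} G (R ∪ T) x hx
    (by
      intro U1 hU1 hxU1 hne
      obtain ⟨C1, hC1⟩ : ∃ C1 : Finset V, C1 = C.filter (fun v => ∃ y ∈ U1, G.Adj v y) :=
        ⟨_, rfl⟩
      by_cases hCC : C1 = C
      · obtain ⟨x', hx', hx'1⟩ : ∃ x' ∈ R ∪ T, x' ∉ U1 := by
          by_contra hcon
          push Not at hcon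
          exact hne (Finset.Subset.antisymm hU1 hcon)
        obtain ⟨h1, h2⟩ := htf x' (hUC hx')
        have h3 : tf x' ∈ C1 := by rw [hCC]; exact h1
        rw [hC1, mem_filter] at h3
        obtain ⟨_, y, hy, hya⟩ := h3
        refine ⟨y, hy, x', hx', hx'1, ?_⟩
        exact walk3 G y (tf x') x' x' (Or.inr hya.symm) (Or.inr (hFG h2).symm) (Or.inl rfl)
      · have h1 : C1 ⊆ C := by
          rw [hC1]
          exact Finset.filter_subset _ _
        have h2 : C1.Nonempty := by
          obtain ⟨h3, h4⟩ := htf x (hUC hx)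
          refine ⟨tf x, ?_⟩
          rw [hC1, mem_filter]
          exact ⟨h3, x, hxU1, (hFG h4).symm⟩
        obtain ⟨v, hv, v', hv', hv'1, hvv'⟩ := hcn C1 h1 h2 hCC
        rw [hC1, mem_filter] at hv
        obtain ⟨_, y, hy, hya⟩ := hv
        obtain ⟨y', hy', hya'⟩ := hcov v' hv'
        refine ⟨y, hy, y', hy', ?_, ?_⟩
        · intro h
          apply hv'1
          rw [hC1, mem_filter]
          exact ⟨hv', y', h, hya'⟩
        · exact walk3 G y v v' y' (Or.inr hya.symm) (Or.inr (hFG hvv')) (Or.inr hya'))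
  refine ⟨R, 8 * (R ∪ T).card, w, θ, hw1, ?_, hθpos.le, ?_, ?_, ?_, ?_⟩
  · have : 0 < (R ∪ T).card := Finset.card_pos.2 ⟨x, hx⟩
    omega
  · intro v hv
    exact hw3 v (mem_union_left _ hv)
  · have h1 : (R ∪ T).card ≤ R.card + Ms.card :=
      (Finset.card_union_le _ _).trans (Nat.add_le_add_left hTc _)
    have h2 : ((R ∪ T).card : ℝ) ≤ R.card + Ms.card := by exact_mod_cast h1
    have h3 : (R.card : ℝ) * d ≤ 15 * l0 * C.card := by
      calc (R.card : ℝ) * d ≤ R.card * (5 * l0 * q) :=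
            mul_le_mul_of_nonneg_left hq4 (Nat.cast_nonneg _)
        _ = 5 * l0 * (R.card * q) := by ring
        _ ≤ 5 * l0 * (3 * C.card) := mul_le_mul_of_nonneg_left hRc (by positivity)
        _ = 15 * l0 * C.card := by ring
    have h4 : (Ms.card : ℝ) * d ≤ 32 * C.card := by
      have h5 : (Ms.card : ℝ) * d ≤ (13 + 6 * C.card / d ^ 2) * d :=
        mul_le_mul_of_nonneg_right hMsc hdpos.le
      have h6 : (13 + 6 * (C.card : ℝ) / d ^ 2) * d = 13 * d + 6 * C.card / d := by
        field_simp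
      have h7 : 6 * (C.card : ℝ) / d ≤ 6 * C.card := by
        apply div_le_self (by positivity)
        linarith
      linarith
    have h5 : (1 - ε) * (C.card : ℝ) ≤ (hit G θ R).card := by
      have h6 : C.card ≤ (hit G θ R).card + (C \ hit G θ R).card := by
        refine le_trans (Finset.card_le_card ?_) (Finset.card_union_le _ _)
        intro v hv
        rw [mem_union, mem_sdiff]
        by_cases h : v ∈ hit G θ R
        · exact Or.inl h
        · exact Or.inr ⟨hv, h⟩
      have h7 : (C.card : ℝ) ≤ (hit G θ R).card + (C \ hit G θ R).card := by exact_mod_cast h6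
      linarith
    have h6 : (9 / 10 : ℝ) * C.card ≤ (hit G θ R).card := by
      refine le_trans ?_ h5
      apply mul_le_mul_of_nonneg_right _ hcpos.le
      linarith
    push_cast
    have h7 : 8 * ((R ∪ T).card : ℝ) * d ≤ 8 * (15 * l0 * C.card + 32 * C.card) := by
      have : ((R ∪ T).card : ℝ) * d ≤ (R.card + Ms.card) * d :=
        mul_le_mul_of_nonneg_right h2 hdpos.le
      linarith
    have h8 : 100 * (C.card : ℝ) ≤ l0 * C.card := mul_le_mul_of_nonneg_right hl100 hcpos.le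
    have h9 : l0 * ((9 / 10 : ℝ) * C.card) ≤ l0 * (hit G θ R).card :=
      mul_le_mul_of_nonneg_left h6 hlpos.le
    linarith
  · exact hA.trans (mul_le_mul_of_nonneg_right hεε hcpos.le)
  · exact hB.trans (mul_le_mul_of_nonneg_right hεε hcpos.le)

end Pool.Agent.Work.MP_db9399_sc.helper23
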